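import Mathlib
import Pool.Agent.helper80.Weights

/-!
# An aperiodic multiplicative function which correlates with an ergodic, completely deterministic weight

There are a multiplicative aperiodic function `f` with `|f(n)| = 1` and a weight `w` with values `1`, `-1` which has exactly one
Furstenberg system, the rotation on two points, such that the averages of `f w` do not tend to `0`.
-/

set_option autoImplicit false
open Filter Topology MeasureTheory

noncomputable section

namespace Pool.Agent.Results.MP_c45d52_nt.TwoPointWeight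

/-- The closed unit disc of the complex plane. -/
abbrev U : Type := {z : ℂ // ‖z‖ ≤ 1}

/-- The space of the two-sided sequences in the closed unit disc. -/
abbrev X : Type := ℤ → U

/-- The shift of `X`. -/
def shift (x : X) : X := fun z => x (z + 1)

/-- `f(m n) = f(m) f(n)` for coprime `m`, `n`. -/
def IsMultiplicative (f : ℕ → U) : Prop :=
  ∀ m n : ℕ, 1 ≤ m → 1 ≤ n → Nat.Coprime m n → (f (m * n) : ℂ) = f m * f n

/-- The averages of `f` along every arithmetic progression `a n + b` tend to `0`. -/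
def IsAperiodic (f : ℕ → U) : Prop :=
  ∀ a b : ℕ, 1 ≤ a → Tendsto (fun N : ℕ => (∑ n ∈ Finset.Icc 1 N, (f (a * n + b) : ℂ)) / N) atTop (𝓝 0)

/-- The number `z` or its complex conjugate. -/
def cj (e : Bool) (z : ℂ) : ℂ := if e then starRingEnd ℂ z else z

/-- The average over `1 ≤ n ≤ N` of the product of the numbers `w(n + h_j)` or their conjugates. -/
def correlation (w : ℕ → U) {m : ℕ} (h : Fin m → ℕ) (e : Fin m → Bool) (N : ℕ) : ℂ :=
  (∑ n ∈ Finset.Icc 1 N, ∏ j, cj (e j) (w (n + h j))) / N

/-- `(X, μ, shift)` is a Furstenberg system of `w` for Cesaro averages. -/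
def IsFurstenbergSystem (w : ℕ → U) (μ : Measure X) : Prop :=
  IsProbabilityMeasure μ ∧ MeasurePreserving shift μ μ ∧
    ∃ N : ℕ → ℕ, Tendsto N atTop atTop ∧ ∀ (m : ℕ) (h : Fin m → ℕ) (e : Fin m → Bool),
      Tendsto (fun k => correlation w h e (N k)) atTop (𝓝 (∫ x : X, ∏ j, cj (e j) (x (h j : ℤ)) ∂μ))

/-- The Shannon entropy of the partition of `X` by the values of `g(x), g(T x), .., g(T^(n-1) x)`, where `T` is the shift. -/
def partitionEntropy (μ : Measure X) {k : ℕ} (g : X → Fin k) (n : ℕ) : ℝ :=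
  ∑ a : Fin n → Fin k, Real.negMulLog (μ {x | ∀ i : Fin n, g (shift^[i] x) = a i}).toReal

/-- The measure theoretic entropy of the shift is zero: the entropy of every finite measurable partition is zero. -/
def ZeroEntropy (μ : Measure X) : Prop :=
  ∀ (k : ℕ) (g : X → Fin k), Measurable g → Tendsto (fun n : ℕ => partitionEntropy μ g n / n) atTop (𝓝 0)

/-- Every Furstenberg system of `w` has zero entropy. -/
def CompletelyDeterministic (w : ℕ → U) : Prop := ∀ μ : Measure X, IsFurstenbergSystem w μ → ZeroEntropy μ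

/-- Every Furstenberg system of `w` is ergodic. -/
def ErgodicWeight (w : ℕ → U) : Prop := ∀ μ : Measure X, IsFurstenbergSystem w μ → Ergodic shift μ

/-- The alternating sequence `(-1)^z`. -/
def alternating : X := fun z => ⟨(-1) ^ z, by simp⟩

/-- The measure of the rotation on two points: mass one half at the alternating sequence and at its shift. -/
def twoPoint : Measure X :=
  (1 / 2 : ENNReal) • Measure.dirac alternating + (1 / 2 : ENNReal) • Measure.dirac (shift alternating)

/-! ## Averages -/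

open Pool.Agent.helper80 (ff ww gf)

/-- The average of the differences tends to zero. -/
def MC (a b : ℕ → ℂ) : Prop := Tendsto (fun N : ℕ => (∑ n ∈ Finset.Icc 1 N, ‖a n - b n‖) / N) atTop (𝓝 0)

lemma MC.trans {a b c : ℕ → ℂ} (h1 : MC a b) (h2 : MC b c) : MC a c := by
  have h := h1.add h2
  rw [add_zero] at h
  refine squeeze_zero (fun N => ?_) (fun N => ?_) h
  · positivity
  · rw [← add_div, ← Finset.sum_add_distrib]
    refine div_le_div_of_nonneg_right (Finset.sum_le_sum fun n _ => ?_) (Nat.cast_nonneg N)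
    exact norm_sub_le_norm_sub_add_norm_sub _ _ _

lemma MC.refl (a : ℕ → ℂ) : MC a a := by
  unfold MC
  simp

lemma MC.mul {a b c d : ℕ → ℂ} (ha : ∀ n, ‖a n‖ ≤ 1) (hd : ∀ n, ‖d n‖ ≤ 1) (h1 : MC a b) (h2 : MC c d) :
    MC (fun n => a n * c n) (fun n => b n * d n) := by
  have h := h1.add h2
  rw [add_zero] at h
  refine squeeze_zero (fun N => ?_) (fun N => ?_) h
  · positivity
  · rw [← add_div, ← Finset.sum_add_distrib]
    refine div_le_div_of_nonneg_right (Finset.sum_le_sum fun n _ => ?_) (Nat.cast_nonneg N)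
    have h3 : a n * c n - b n * d n = (a n - b n) * d n + a n * (c n - d n) := by ring
    rw [h3]
    refine (norm_add_le _ _).trans ?_
    rw [norm_mul, norm_mul]
    have h4 := mul_le_mul_of_nonneg_left (hd n) (norm_nonneg (a n - b n))
    have h5 := mul_le_mul_of_nonneg_right (ha n) (norm_nonneg (c n - d n))
    linarith

lemma MC.shift {a b : ℕ → ℂ} (h : MC a b) : MC (fun n => a (n + 1)) (fun n => b (n + 1)) := by
  have h1 : Tendsto (fun N : ℕ => 2 * ((∑ n ∈ Finset.Icc 1 (N + 1), ‖a n - b n‖) / ((N + 1 : ℕ) : ℝ))) atTop (𝓝 0) := by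
    have h2 := (h.comp (tendsto_add_atTop_nat 1)).const_mul 2
    rw [mul_zero] at h2
    exact h2
  refine squeeze_zero' (Eventually.of_forall fun N => ?_) ?_ h1
  · positivity
  · filter_upwards [eventually_ge_atTop 1] with N hN
    have hN' : (1 : ℝ) ≤ N := by exact_mod_cast hN
    have h3 : ∑ n ∈ Finset.Icc 1 N, ‖a (n + 1) - b (n + 1)‖ ≤ ∑ n ∈ Finset.Icc 1 (N + 1), ‖a n - b n‖ := by
      have h4 : ∑ n ∈ Finset.Icc 1 N, ‖a (n + 1) - b (n + 1)‖
          = ∑ n ∈ (Finset.Icc 1 N).map (addRightEmbedding 1), ‖a n - b n‖ := by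
        rw [Finset.sum_map]
        rfl
      rw [h4, Finset.map_add_right_Icc]
      refine Finset.sum_le_sum_of_subset_of_nonneg (Finset.Icc_subset_Icc (by omega) le_rfl) fun _ _ _ => norm_nonneg _
    have h5 : 0 ≤ ∑ n ∈ Finset.Icc 1 (N + 1), ‖a n - b n‖ := Finset.sum_nonneg fun _ _ => norm_nonneg _
    calc (∑ n ∈ Finset.Icc 1 N, ‖a (n + 1) - b (n + 1)‖) / N
        ≤ (∑ n ∈ Finset.Icc 1 (N + 1), ‖a n - b n‖) / N := by gcongr
      _ ≤ _ := by
        push_cast
        rw [div_le_iff₀ (by linarith), mul_div_assoc', div_mul_eq_mul_div, le_div_iff₀ (by linarith)]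
        nlinarith

/-- The averages of `b` tend to `L`, so the averages of `a` do. -/
lemma MC.avg {a b : ℕ → ℂ} {L : ℂ} (h : MC a b)
    (hb : Tendsto (fun N : ℕ => (∑ n ∈ Finset.Icc 1 N, b n) / N) atTop (𝓝 L)) :
    Tendsto (fun N : ℕ => (∑ n ∈ Finset.Icc 1 N, a n) / N) atTop (𝓝 L) := by
  have h1 : Tendsto (fun N : ℕ => (∑ n ∈ Finset.Icc 1 N, (a n - b n)) / (N : ℂ)) atTop (𝓝 0) := by
    refine squeeze_zero_norm (fun N => ?_) h
    rw [norm_div, Complex.norm_natCast]
    exact div_le_div_of_nonneg_right (norm_sum_le _ _) (Nat.cast_nonneg N)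
  have h2 := h1.add hb
  rw [zero_add] at h2
  refine h2.congr fun N => ?_
  rw [← add_div, ← Finset.sum_add_distrib]
  simp

lemma ww_pm (n : ℕ) : ww n = 1 ∨ ww n = -1 := mul_self_eq_one_iff.mp (Pool.Agent.helper80.ww_mul_self n)

lemma cj_ww (e : Bool) (n : ℕ) : cj e (ww n) = ww n := by
  unfold cj
  split_ifs
  · rcases ww_pm n with h | h <;> rw [h] <;> simp
  · rfl

lemma ww_step : MC (fun n => ww (n + 1)) (fun n => -ww n) := by
  have h1 := (Complex.continuous_re.tendsto _).comp Pool.Agent.helper80.ww_corr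
  have h2 := h1.const_add 1
  have h3 : (1 : ℝ) + (-1 : ℂ).re = 0 := by simp
  rw [h3] at h2
  unfold MC
  refine h2.congr' ?_
  filter_upwards [eventually_ge_atTop 1] with N hN
  have hN' : (N : ℝ) ≠ 0 := by
    have : N ≠ 0 := by omega
    exact_mod_cast this
  have h4 : ∀ n, ‖ww (n + 1) - -ww n‖ = 1 + (ww n * ww (n + 1)).re := by
    intro n
    rcases ww_pm n with h | h <;> rcases ww_pm (n + 1) with h' | h' <;> rw [h, h'] <;> norm_num
  simp only [Function.comp_apply]
  rw [Finset.sum_congr rfl fun n _ => h4 n, Finset.sum_add_distrib, Finset.sum_const, Nat.card_Icc]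
  have h5 : ((1 / (N : ℂ)) * ∑ n ∈ Finset.Icc 1 N, ww n * ww (n + 1)).re
      = (∑ n ∈ Finset.Icc 1 N, (ww n * ww (n + 1)).re) / N := by
    have h6 : (1 / (N : ℂ)) = ((1 / (N : ℝ) : ℝ) : ℂ) := by push_cast; rfl
    rw [h6, Complex.re_ofReal_mul, Complex.re_sum]
    ring
  rw [h5]
  simp only [Nat.add_sub_cancel, nsmul_eq_mul, mul_one]
  field_simp

lemma ww_shift (h : ℕ) : MC (fun n => ww (n + h)) (fun n => (-1) ^ h * ww n) := by
  induction h with
  | zero => simpa using MC.refl ww
  | succ h ih =>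
    have h1 := ih.shift
    have h2 : MC (fun n => (-1 : ℂ) ^ h * ww (n + 1)) (fun n => (-1) ^ h * -ww n) :=
      MC.mul (a := fun _ => (-1 : ℂ) ^ h) (b := fun _ => (-1 : ℂ) ^ h) (fun _ => by simp)
        (fun n => by rw [norm_neg]; exact (Pool.Agent.helper80.norm_ww n).le) (MC.refl _) ww_step
    have h3 := h1.trans h2
    have h4 : (fun n => ww (n + 1 + h)) = fun n => ww (n + (h + 1)) := by
      funext n
      congr 1
      omega
    have h5 : (fun n => (-1 : ℂ) ^ h * -ww n) = fun n => (-1) ^ (h + 1) * ww n := by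
      funext n
      rw [pow_succ]
      ring
    rw [h4, h5] at h3
    exact h3

lemma ww_prod {m : ℕ} (h : Fin m → ℕ) (s : Finset (Fin m)) :
    MC (fun n => ∏ j ∈ s, ww (n + h j)) (fun n => ∏ j ∈ s, ((-1) ^ h j * ww n)) := by
  classical
  induction s using Finset.induction_on with
  | empty => simpa using MC.refl fun _ => (1 : ℂ)
  | insert i s hi ih =>
    simp only [Finset.prod_insert hi]
    refine MC.mul (a := fun n => ww (n + h i)) (b := fun n => (-1) ^ h i * ww n) (fun n => (Pool.Agent.helper80.norm_ww _).le)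
      (fun n => ?_) (ww_shift (h i)) ih
    rw [norm_prod]
    refine Finset.prod_le_one (fun _ _ => norm_nonneg _) fun j _ => ?_
    rw [norm_mul, norm_pow, norm_neg, norm_one, one_pow, one_mul]
    exact (Pool.Agent.helper80.norm_ww n).le

lemma ww_avg : Tendsto (fun N : ℕ => (∑ n ∈ Finset.Icc 1 N, ww n) / (N : ℂ)) atTop (𝓝 0) := by
  have h1 : Tendsto (fun N : ℕ => (∑ n ∈ Finset.Icc 1 N, (ww (n + 1) - -ww n)) / (N : ℂ)) atTop (𝓝 0) := by
    refine squeeze_zero_norm (fun N => ?_) ww_step
    rw [norm_div, Complex.norm_natCast]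
    exact div_le_div_of_nonneg_right (norm_sum_le _ _) (Nat.cast_nonneg N)
  have h2 : Tendsto (fun N : ℕ => (ww (N + 1) - ww 1) / (N : ℂ)) atTop (𝓝 0) := by
    refine squeeze_zero_norm (a := fun N : ℕ => (2 : ℝ) / N) (fun N => ?_) (tendsto_const_div_atTop_nhds_zero_nat 2)
    rw [norm_div, Complex.norm_natCast]
    refine div_le_div_of_nonneg_right ?_ (Nat.cast_nonneg N)
    refine (norm_sub_le _ _).trans ?_
    rw [Pool.Agent.helper80.norm_ww, Pool.Agent.helper80.norm_ww]
    norm_num
  have h3 := (h1.sub h2).div_const 2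
  rw [sub_zero, zero_div] at h3
  refine h3.congr fun N => ?_
  have h4 : ∑ n ∈ Finset.Icc 1 N, (ww (n + 1) - ww n) = ww (N + 1) - ww 1 := by
    induction N with
    | zero => simp
    | succ N ih => rw [Finset.sum_Icc_succ_top (by omega), ih]; ring
  have h5 : ∑ n ∈ Finset.Icc 1 N, (ww (n + 1) - -ww n) = ∑ n ∈ Finset.Icc 1 N, (ww (n + 1) - ww n) + 2 * ∑ n ∈ Finset.Icc 1 N, ww n := by
    rw [Finset.mul_sum, ← Finset.sum_add_distrib]
    refine Finset.sum_congr rfl fun n _ => ?_
    ring
  rw [← sub_div, h5, h4]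
  ring

/-- The limits of the correlations of the weight. -/
lemma ww_corr_lim {m : ℕ} (h : Fin m → ℕ) :
    Tendsto (fun N : ℕ => (∑ n ∈ Finset.Icc 1 N, ∏ j, ww (n + h j)) / (N : ℂ)) atTop
      (𝓝 ((1 / 2) * (∏ j, (-1) ^ h j) + (1 / 2) * ((-1) ^ m * ∏ j, (-1) ^ h j))) := by
  refine (ww_prod h Finset.univ).avg ?_
  have h1 : ∀ n, ∏ j, ((-1 : ℂ) ^ h j * ww n) = (∏ j, (-1) ^ h j) * ww n ^ m := by
    intro n
    rw [Finset.prod_mul_distrib, Finset.prod_const, Finset.card_univ, Fintype.card_fin]
  simp only [h1, ← Finset.mul_sum]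
  rcases Nat.even_or_odd m with hm | hm
  · have h2 : ∀ n, ww n ^ m = 1 := by
      intro n
      rcases ww_pm n with h | h <;> rw [h]
      · simp
      · exact hm.neg_one_pow
    rw [hm.neg_one_pow]
    simp only [h2, Finset.sum_const, Nat.card_Icc, Nat.add_sub_cancel, nsmul_eq_mul, mul_one, one_mul]
    refine tendsto_const_nhds.congr' ?_
    filter_upwards [eventually_ge_atTop 1] with N hN
    have hN' : (N : ℂ) ≠ 0 := by
      have : N ≠ 0 := by omega
      exact_mod_cast this
    field_simp
    ring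
  · have h2 : ∀ n, ww n ^ m = ww n := by
      intro n
      rcases ww_pm n with h | h <;> rw [h]
      · simp
      · exact hm.neg_one_pow
    rw [hm.neg_one_pow]
    simp only [h2, mul_div_assoc]
    have h3 := ww_avg.const_mul (∏ j, (-1 : ℂ) ^ h j)
    rw [mul_zero] at h3
    refine h3.congr' (Eventually.of_forall fun N => rfl) |>.trans ?_
    rw [neg_one_mul]
    ring_nf
    exact le_refl _

/-! ## The rotation on two points -/

lemma shift_shift : shift (shift alternating) = alternating := by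
  funext z
  apply Subtype.ext
  show (-1 : ℂ) ^ (z + 1 + 1) = (-1) ^ z
  rw [zpow_add₀ (by norm_num), zpow_add₀ (by norm_num)]
  simp

lemma shift_coe (z : ℤ) : ((shift alternating z : U) : ℂ) = -(-1) ^ z := by
  show (-1 : ℂ) ^ (z + 1) = -(-1) ^ z
  rw [zpow_add₀ (by norm_num)]
  simp

lemma ne_shift : alternating ≠ shift alternating := by
  intro h
  have h1 := congrArg (fun x : X => ((x 0 : U) : ℂ)) h
  simp only [shift_coe] at h1
  have h2 : ((alternating 0 : U) : ℂ) = 1 := by
    show (-1 : ℂ) ^ (0 : ℤ) = 1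
    simp
  rw [h2] at h1
  norm_num at h1

lemma measurable_shift : Measurable shift := measurable_pi_lambda _ fun z => measurable_pi_apply (z + 1)

instance : IsProbabilityMeasure twoPoint := by
  constructor
  simp only [twoPoint, Measure.coe_add, Measure.coe_smul, Pi.add_apply, Pi.smul_apply, measure_univ, smul_eq_mul, mul_one]
  exact ENNReal.add_halves 1

lemma mp_twoPoint : MeasurePreserving shift twoPoint twoPoint := by
  refine ⟨measurable_shift, ?_⟩
  unfold twoPoint
  rw [Measure.map_add _ _ measurable_shift, Measure.map_smul, Measure.map_smul]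
  have h1 := Measure.map_dirac' measurable_shift alternating
  have h2 := Measure.map_dirac' measurable_shift (shift alternating)
  rw [h1, h2, shift_shift, add_comm]

lemma ae_twoPoint : ∀ᵐ x ∂twoPoint, x = alternating ∨ x = shift alternating := by
  have hs : MeasurableSet {x : X | ¬ (x = alternating ∨ x = shift alternating)} := by
    have : {x : X | ¬ (x = alternating ∨ x = shift alternating)} = ({alternating} ∪ {shift alternating})ᶜ := rfl
    rw [this]
    exact ((measurableSet_singleton _).union (measurableSet_singleton _)).compl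
  rw [ae_iff]
  unfold twoPoint
  simp only [Measure.coe_add, Measure.coe_smul, Pi.add_apply, Pi.smul_apply, smul_eq_mul]
  rw [Measure.dirac_apply' _ hs, Measure.dirac_apply' _ hs]
  simp

lemma integral_twoPoint (F : X → ℂ) : ∫ x, F x ∂twoPoint = (1 / 2) * F alternating + (1 / 2) * F (shift alternating) := by
  unfold twoPoint
  have h1 : ∀ a : X, Integrable F ((1 / 2 : ENNReal) • Measure.dirac a) := by
    intro a
    refine Integrable.smul_measure ?_ (by simp)
    exact integrable_dirac (by simp)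
  rw [integral_add_measure (h1 _) (h1 _), integral_smul_measure, integral_smul_measure, integral_dirac, integral_dirac]
  simp

lemma ergodic_twoPoint : Ergodic shift twoPoint := by
  refine ⟨mp_twoPoint, ⟨?_⟩⟩
  intro s _ hinv
  rw [eventuallyConst_set]
  have hiff : alternating ∈ s ↔ shift alternating ∈ s := by
    constructor
    · intro h1
      have h2 : shift alternating ∈ shift ⁻¹' s := by
        rw [Set.mem_preimage, shift_shift]; exact h1
      rwa [hinv] at h2
    · intro h1
      have h2 : alternating ∈ shift ⁻¹' s := h1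
      rwa [hinv] at h2
  by_cases h1 : alternating ∈ s
  · left
    filter_upwards [ae_twoPoint] with x hx
    rcases hx with rfl | rfl
    · exact h1
    · exact hiff.mp h1
  · right
    filter_upwards [ae_twoPoint] with x hx
    rcases hx with rfl | rfl
    · exact h1
    · exact fun h' => h1 (hiff.mpr h')

lemma zeroEntropy_twoPoint : ZeroEntropy twoPoint := by
  classical
  intro k g _
  have hprob : ∀ A : Set X, (twoPoint A).toReal ≤ 1 := fun A => by
    have := prob_le_one (μ := twoPoint) (s := A)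
    exact ENNReal.toReal_le_of_le_ofReal zero_le_one (by simpa using this)
  have hbound : ∀ n : ℕ, 0 ≤ partitionEntropy twoPoint g n ∧ partitionEntropy twoPoint g n ≤ 2 := by
    intro n
    unfold partitionEntropy
    refine ⟨Finset.sum_nonneg fun a _ => Real.negMulLog_nonneg ENNReal.toReal_nonneg (hprob _), ?_⟩
    let ap : Fin n → Fin k := fun i => g (shift^[i] alternating)
    let am : Fin n → Fin k := fun i => g (shift^[i] (shift alternating))
    have hzero : ∀ a : Fin n → Fin k, a ∉ ({ap, am} : Finset (Fin n → Fin k)) →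
        Real.negMulLog (twoPoint {x | ∀ i : Fin n, g (shift^[i] x) = a i}).toReal = 0 := by
      intro a ha
      simp only [Finset.mem_insert, Finset.mem_singleton, not_or] at ha
      have : twoPoint {x | ∀ i : Fin n, g (shift^[i] x) = a i} = 0 := by
        rw [measure_eq_zero_iff_ae_notMem]
        filter_upwards [ae_twoPoint] with x hx hmem0
        have hmem : ∀ i : Fin n, g (shift^[i] x) = a i := hmem0
        rcases hx with rfl | rfl
        · exact ha.1 (funext fun i => (hmem i).symm)
        · exact ha.2 (funext fun i => (hmem i).symm)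
      rw [this]; simp
    calc _ = ∑ a ∈ ({ap, am} : Finset (Fin n → Fin k)),
          Real.negMulLog (twoPoint {x | ∀ i : Fin n, g (shift^[i] x) = a i}).toReal := by
          symm
          refine Finset.sum_subset (Finset.subset_univ _) fun a _ ha => hzero a ha
      _ ≤ ∑ a ∈ ({ap, am} : Finset (Fin n → Fin k)), (1:ℝ) :=
          Finset.sum_le_sum fun a _ => Pool.Agent.helper80.negMulLog_le_one ENNReal.toReal_nonneg
      _ ≤ 2 := by
          rw [Finset.sum_const, nsmul_eq_mul, mul_one]
          exact_mod_cast Finset.card_le_two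
  refine squeeze_zero (fun n => ?_) (g := fun n : ℕ => (2:ℝ) / n) (fun n => ?_) ?_
  · exact div_nonneg (hbound n).1 (Nat.cast_nonneg n)
  · exact div_le_div_of_nonneg_right (hbound n).2 (Nat.cast_nonneg n)
  · exact tendsto_const_div_atTop_nhds_zero_nat 2

/-- The weight. -/
def wU (n : ℕ) : U := ⟨ww n, (Pool.Agent.helper80.norm_ww n).le⟩

lemma correlation_wU {m : ℕ} (h : Fin m → ℕ) (e : Fin m → Bool) (N : ℕ) :
    correlation wU h e N = (∑ n ∈ Finset.Icc 1 N, ∏ j, ww (n + h j)) / N := by
  unfold correlation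
  congr 1
  refine Finset.sum_congr rfl fun n _ => Finset.prod_congr rfl fun j _ => ?_
  exact cj_ww _ _

lemma cj_sign (e : Bool) (s : ℂ) (hs : s = 1 ∨ s = -1) : cj e s = s := by
  unfold cj
  split_ifs
  · rcases hs with rfl | rfl <;> simp
  · rfl

lemma sign_pow (n : ℕ) : (-1 : ℂ) ^ n = 1 ∨ (-1 : ℂ) ^ n = -1 := neg_one_pow_eq_or ℂ n

lemma integral_prod {m : ℕ} (h : Fin m → ℕ) (e : Fin m → Bool) :
    ∫ x : X, ∏ j, cj (e j) (x (h j : ℤ)) ∂twoPoint = (1 / 2) * (∏ j, (-1) ^ h j) + (1 / 2) * ((-1) ^ m * ∏ j, (-1) ^ h j) := by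
  rw [integral_twoPoint]
  congr 2
  · refine Finset.prod_congr rfl fun j _ => ?_
    have h1 : ((alternating (h j : ℤ) : U) : ℂ) = (-1) ^ h j := by
      show (-1 : ℂ) ^ ((h j : ℕ) : ℤ) = _
      rw [zpow_natCast]
    rw [h1]
    exact cj_sign _ _ (sign_pow _)
  · have h1 : ∀ j, cj (e j) ((shift alternating (h j : ℤ) : U) : ℂ) = (-1) * (-1) ^ h j := by
      intro j
      rw [shift_coe, zpow_natCast]
      rcases sign_pow (h j) with h2 | h2 <;> rw [h2] <;> rw [cj_sign] <;> norm_num
    rw [Finset.prod_congr rfl fun j _ => h1 j, Finset.prod_mul_distrib, Finset.prod_const, Finset.card_univ, Fintype.card_fin]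

lemma isFS_twoPoint : IsFurstenbergSystem wU twoPoint := by
  refine ⟨inferInstance, mp_twoPoint, fun N => N, tendsto_id, fun m h e => ?_⟩
  simp only [correlation_wU]
  rw [integral_prod]
  exact ww_corr_lim h

lemma eq_twoPoint (μ : Measure X) (hμ : IsFurstenbergSystem wU μ) : μ = twoPoint := by
  obtain ⟨hp, hT, N, hN, hlim⟩ := hμ
  have h00 : ∫ x : X, (x 0 : ℂ) * (x 0 : ℂ) ∂μ = 1 := by
    have h1 := hlim 2 (fun _ => 0) (fun _ => false)
    simp only [correlation_wU] at h1
    have h2 := (ww_corr_lim (m := 2) (fun _ => 0)).comp hN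
    have h3 := tendsto_nhds_unique h1 h2
    simp only [cj, Fin.prod_univ_two, Nat.cast_zero, Bool.false_eq_true, if_false, pow_zero] at h3
    rw [h3]
    norm_num
  have h01 : ∫ x : X, (x 0 : ℂ) * (x 1 : ℂ) ∂μ = -1 := by
    have h1 := hlim 2 ![0, 1] (fun _ => false)
    simp only [correlation_wU] at h1
    have h2 := (ww_corr_lim (m := 2) ![0, 1]).comp hN
    have h3 := tendsto_nhds_unique h1 h2
    simp only [cj, Fin.prod_univ_two, Bool.false_eq_true, if_false, Matrix.cons_val_zero, Matrix.cons_val_one, Nat.cast_zero,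
      Nat.cast_one, pow_zero] at h3
    rw [h3]
    norm_num
  let ι : X → (ℤ → ℂ) := fun x z => (x z : ℂ)
  have hι : Measurable ι := measurable_pi_lambda _ fun z => measurable_subtype_coe.comp (measurable_pi_apply z)
  have hprob : IsProbabilityMeasure (μ.map ι) := Measure.isProbabilityMeasure_map hι.aemeasurable
  have hbd : (μ.map ι) {x | ∀ z : ℤ, ‖x z‖ ≤ 1} = 1 := by
    have hmeas : MeasurableSet {x : ℤ → ℂ | ∀ z : ℤ, ‖x z‖ ≤ 1} := by
      have : {x : ℤ → ℂ | ∀ z : ℤ, ‖x z‖ ≤ 1} = ⋂ z : ℤ, {x : ℤ → ℂ | ‖x z‖ ≤ 1} := by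
        ext x; simp
      rw [this]
      exact MeasurableSet.iInter fun z => measurableSet_le (measurable_pi_apply z).norm measurable_const
    rw [Measure.map_apply hι hmeas]
    have : ι ⁻¹' {x : ℤ → ℂ | ∀ z : ℤ, ‖x z‖ ≤ 1} = Set.univ := by
      ext x
      simp only [Set.mem_preimage, Set.mem_univ, iff_true]
      exact fun z => (x z).2
    rw [this]
    exact measure_univ
  have hmp : MeasurePreserving Pool.Agent.helper80.shiftMap (μ.map ι) (μ.map ι) := by
    refine ⟨Pool.Agent.helper80.measurable_shiftMap, ?_⟩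
    rw [Measure.map_map Pool.Agent.helper80.measurable_shiftMap hι]
    have : Pool.Agent.helper80.shiftMap ∘ ι = ι ∘ shift := rfl
    rw [this, ← Measure.map_map hι hT.measurable, hT.map_eq]
  have i00 : ∫ x : ℤ → ℂ, x 0 * x 0 ∂(μ.map ι) = 1 := by
    rw [integral_map hι.aemeasurable (by fun_prop)]
    exact h00
  have i01 : ∫ x : ℤ → ℂ, x 0 * x 1 ∂(μ.map ι) = -1 := by
    rw [integral_map hι.aemeasurable (by fun_prop)]
    exact h01
  have hae := ae_of_ae_map hι.aemeasurable (Pool.Agent.helper80.ae_alt (μ.map ι) hbd hmp i00 i01)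
  have hae2 : ∀ᵐ x ∂μ, x = alternating ∨ x = shift alternating := by
    filter_upwards [hae] with x hx
    rcases hx with hx | hx
    · left
      funext z
      apply Subtype.ext
      have := congrFun hx z
      simp only [ι, Pool.Agent.helper80.altSeq, one_mul] at this
      exact this
    · right
      funext z
      apply Subtype.ext
      have := congrFun hx z
      simp only [ι, Pool.Agent.helper80.altSeq] at this
      rw [shift_coe, this]
      ring
  -- the two atoms
  have hm1 : MeasurableSet ({alternating} : Set X) := measurableSet_singleton _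
  have hm2 : MeasurableSet ({shift alternating} : Set X) := measurableSet_singleton _
  have hres : μ = μ {alternating} • Measure.dirac alternating + μ {shift alternating} • Measure.dirac (shift alternating) := by
    have h1 : μ.restrict ({alternating} ∪ {shift alternating}) = μ := by
      refine Measure.restrict_eq_self_of_ae_mem ?_
      filter_upwards [hae2] with x hx
      exact hx
    conv_lhs => rw [← h1]
    rw [Measure.restrict_union (by simpa using ne_shift) hm2, Measure.restrict_singleton, Measure.restrict_singleton]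
  have heq : μ {shift alternating} = μ {alternating} := by
    rw [← hT.measure_preimage hm2.nullMeasurableSet]
    refine measure_congr ?_
    filter_upwards [hae2] with x hx
    have h2 : (x ∈ shift ⁻¹' ({shift alternating} : Set X)) = (x ∈ ({alternating} : Set X)) := by
      rw [Set.mem_preimage, Set.mem_singleton_iff, Set.mem_singleton_iff]
      rcases hx with rfl | rfl
      · simp
      · rw [shift_shift]
        exact propext ⟨fun h => (ne_shift h).elim, fun h => (ne_shift h.symm).elim⟩
    exact h2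
  have hsum : μ {alternating} + μ {alternating} = 1 := by
    have h1 : μ Set.univ = 1 := measure_univ
    rw [hres, heq] at h1
    simpa using h1
  have hhalf : μ {alternating} = 1 / 2 := by
    rw [← two_mul] at hsum
    rw [ENNReal.eq_div_iff (by norm_num) (by norm_num)]
    exact hsum
  rw [hres, heq, hhalf]
  rfl

/-! ## The function and the theorem -/

/-- The multiplicative function. -/
def fU (n : ℕ) : U := ⟨ff n, (Pool.Agent.helper80.norm_ff n).le⟩

lemma frequently_large :
    ∃ᶠ N : ℕ in atTop, (1 / 8 : ℝ) ≤ ‖(∑ n ∈ Finset.Icc 1 N, ff n * ww n) / N‖ := by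
  intro hev
  obtain ⟨N1, hN1⟩ := eventually_atTop.mp hev
  obtain ⟨l, hl, hlow⟩ := Pool.Agent.helper80.lower_bound (2 * N1 + 4)
  have hlt := Pool.Agent.helper80.lt_stage_N (2 * N1 + 4 + 1)
  rw [hl] at hlt
  have hl1 : N1 + 2 < 2 ^ l := by
    rw [pow_succ] at hlt; omega
  have hfw : ∀ n, ff n * ww n = - ((Pool.Agent.helper80.zeta n : ℂ) * gf n) := by
    intro n
    unfold ff ww
    have h1 : ((-1 : ℂ)) ^ (n + 1) * (-1) ^ n = -1 := by
      rw [pow_succ, mul_comm ((-1:ℂ)^n) (-1), mul_assoc, ← mul_pow]; simp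
    calc _ = ((-1 : ℂ) ^ (n + 1) * (-1) ^ n) * (Pool.Agent.helper80.zeta n * gf n) := by ring
      _ = _ := by rw [h1]; ring
  have hb : ∀ N, N1 ≤ N → 1 ≤ N → ‖∑ n ∈ Finset.Icc 1 N, ff n * ww n‖ ≤ (1 / 8) * N := by
    intro N hN hN'
    have h1 := hN1 N hN
    rw [not_le, norm_div, Complex.norm_natCast] at h1
    have hNr : (0:ℝ) < N := by exact_mod_cast hN'
    rw [div_lt_iff₀ hNr] at h1
    linarith
  have h2 := hb (2 ^ (l + 1) - 1) (by rw [pow_succ]; omega) (by rw [pow_succ]; omega)
  have h3 := hb (2 ^ l - 1) (by omega) (by omega)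
  have h4 : ∑ n ∈ Finset.Icc 1 (2 ^ (l + 1) - 1), ff n * ww n
      = ∑ n ∈ Finset.Icc 1 (2 ^ l - 1), ff n * ww n + ∑ n ∈ Finset.Ico (2 ^ l) (2 ^ (l + 1)), ff n * ww n := by
    have h5 : Finset.Icc 1 (2 ^ (l + 1) - 1) = Finset.Icc 1 (2 ^ l - 1) ∪ Finset.Ico (2 ^ l) (2 ^ (l + 1)) := by
      ext x
      simp only [Finset.mem_Icc, Finset.mem_union, Finset.mem_Ico, pow_succ]
      omega
    rw [h5, Finset.sum_union]
    rw [Finset.disjoint_left]
    intro x hx hx'
    simp only [Finset.mem_Icc, Finset.mem_Ico] at hx hx'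
    omega
  have h6 : ‖∑ n ∈ Finset.Ico (2 ^ l) (2 ^ (l + 1)), (Pool.Agent.helper80.zeta n : ℂ) * gf n‖
      = ‖∑ n ∈ Finset.Icc 1 (2 ^ (l + 1) - 1), ff n * ww n - ∑ n ∈ Finset.Icc 1 (2 ^ l - 1), ff n * ww n‖ := by
    rw [h4, add_sub_cancel_left]
    simp_rw [hfw]
    rw [Finset.sum_neg_distrib, norm_neg]
  rw [h6] at hlow
  have h7 := norm_sub_le (∑ n ∈ Finset.Icc 1 (2 ^ (l + 1) - 1), ff n * ww n) (∑ n ∈ Finset.Icc 1 (2 ^ l - 1), ff n * ww n)
  have h8 : ((2 ^ (l + 1) - 1 : ℕ) : ℝ) ≤ 2 * 2 ^ l := by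
    have : 2 ^ (l + 1) - 1 ≤ 2 * 2 ^ l := by rw [pow_succ]; omega
    exact_mod_cast this
  have h9 : ((2 ^ l - 1 : ℕ) : ℝ) ≤ 2 ^ l := by
    have : 2 ^ l - 1 ≤ 2 ^ l := Nat.sub_le _ _
    exact_mod_cast this
  have : (0:ℝ) < 2 ^ l := by positivity
  linarith

/-- There are an aperiodic multiplicative function `f(n) = (-1)^(n+1) g(n)`, where `g` is completely multiplicative with values on
the unit circle, and a weight `w` with values `1`, `-1` such that `w` has exactly one Furstenberg system, the rotation on two points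
(so `w` is ergodic and completely deterministic), and the average of `f w` over `1 ≤ n ≤ N` has absolute value at least `1/8` for
infinitely many `N`. -/
theorem result : ∃ (f w : ℕ → U) (g : ℕ → ℂ),
    (∀ n, ‖g n‖ = 1) ∧ (∀ m n : ℕ, 1 ≤ m → 1 ≤ n → g (m * n) = g m * g n) ∧ (∀ n, (f n : ℂ) = (-1) ^ (n + 1) * g n) ∧
    IsMultiplicative f ∧ IsAperiodic f ∧
    (∀ n, (w n : ℂ) = 1 ∨ (w n : ℂ) = -1) ∧ (∀ μ : Measure X, IsFurstenbergSystem w μ ↔ μ = twoPoint) ∧
    CompletelyDeterministic w ∧ ErgodicWeight w ∧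
    (∃ᶠ N : ℕ in atTop, (1 / 8 : ℝ) ≤ ‖(∑ n ∈ Finset.Icc 1 N, (f n : ℂ) * w n) / N‖) ∧
    ¬ Tendsto (fun N : ℕ => (∑ n ∈ Finset.Icc 1 N, (f n : ℂ) * w n) / N) atTop (𝓝 0) := by
  refine ⟨fU, wU, gf, Pool.Agent.helper80.norm_gf, fun m n hm hn => Pool.Agent.helper80.G_mul _ (by omega) (by omega),
    fun n => rfl, Pool.Agent.helper80.ff_mul, fun a b ha => ?_, ww_pm, fun μ => ⟨eq_twoPoint μ, ?_⟩, fun μ hμ => ?_,
    fun μ hμ => ?_, frequently_large, fun h => ?_⟩
  · refine (Pool.Agent.helper80.ff_aperiodic a b ha).congr fun N => ?_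
    rw [one_div, div_eq_inv_mul]
    rfl
  · rintro rfl
    exact isFS_twoPoint
  · rw [eq_twoPoint μ hμ]
    exact zeroEntropy_twoPoint
  · rw [eq_twoPoint μ hμ]
    exact ergodic_twoPoint
  · have h1 : ∀ᶠ N : ℕ in atTop, ‖(∑ n ∈ Finset.Icc 1 N, ff n * ww n) / (N : ℂ)‖ < 1 / 8 := by
      have h2 := h.norm
      rw [norm_zero] at h2
      exact h2.eventually_lt_const (by norm_num)
    obtain ⟨N, hN1, hN2⟩ := (frequently_large.and_eventually h1).exists
    linarith

end Pool.Agent.Results.MP_c45d52_nt.TwoPointWeight
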